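import Mathlib
import Pool.Agent.W_158c65_h48.Defs
import Pool.Agent.W_158c65_h48.Fin7_6
import Pool.Agent.W_158c65_h48.Fin8_5
import Pool.Agent.W_158c65_h48.Fin9_4
import Pool.Agent.W_158c65_h48.Fin10_0
/-!
The Hadwiger number and the strict Hadwiger number of the three-dimensional Petty space are `14`.

At most one point of a `1`-separated set of unit vectors with `r = √(x² + y²) < 1/2` lies on each
side of the plane `z = 0`, so for the upper bound it suffices to exclude `13` points with
`r ≥ 1/2`.  With the weights `w = 1 - 1/(2r)` the distance conditions become lower bounds for the
differences of the planar angles.  The remaining system is refuted by a branch and bound tree over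
the weights and the cyclic order, checked by the kernel: every leaf is a closed walk along which
the lower bounds for the angles add up to more than the available number of full turns.
-/
set_option autoImplicit false
namespace Pool.Agent.Results.MP_158c65_co.HadwigerPetty

open Petty158

theorem result : hadwiger Petty = 14 ∧ strictHadwiger Petty = 14 :=
  Checked.final ⟨⟨_, root7_6, inf7_6⟩, ⟨_, root8_5, inf8_5⟩, ⟨_, root9_4, inf9_4⟩,
    ⟨_, root10_0, inf10_0⟩⟩

end Pool.Agent.Results.MP_158c65_co.HadwigerPetty
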